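import Pool.Agent.H98.Cubic.Defs

/-! Cubic moment of Hardy's function: basic lemmas on `ei`, `ee`, `nd`, `mn` and integration by
parts bounds. -/

set_option autoImplicit false

open Finset MeasureTheory intervalIntegral

namespace Pool.Agent.H98.Cubic

/-! ### `ei` and `ee` -/

@[simp] theorem norm_ei (x : ℝ) : ‖ei x‖ = 1 := by
  unfold ei; exact Complex.norm_exp_ofReal_mul_I x

theorem ei_add (x y : ℝ) : ei (x + y) = ei x * ei y := by
  unfold ei; rw [← Complex.exp_add]; push_cast; ring_nf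

@[simp] theorem ei_zero : ei 0 = 1 := by unfold ei; simp

theorem ei_neg (x : ℝ) : ei (-x) = (ei x)⁻¹ := by
  unfold ei; rw [← Complex.exp_neg]; push_cast; ring_nf

theorem ei_sub (x y : ℝ) : ei (x - y) = ei x * (ei y)⁻¹ := by
  rw [sub_eq_add_neg, ei_add, ei_neg]

theorem ei_ne_zero (x : ℝ) : ei x ≠ 0 := Complex.exp_ne_zero _

theorem conj_ei (x : ℝ) : (starRingEnd ℂ) (ei x) = ei (-x) := by
  unfold ei
  rw [← Complex.exp_conj, map_mul, Complex.conj_I, Complex.conj_ofReal]
  push_cast; ring_nf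

theorem ei_pow (x : ℝ) (n : ℕ) : ei x ^ n = ei (n * x) := by
  unfold ei; rw [← Complex.exp_nat_mul]; push_cast; ring_nf

theorem ei_two_pi_int (n : ℤ) : ei (2 * Real.pi * n) = 1 := by
  unfold ei
  rw [Complex.exp_eq_one_iff]
  exact ⟨n, by push_cast; ring⟩

@[simp] theorem norm_ee (x : ℝ) : ‖ee x‖ = 1 := norm_ei _

theorem ee_add (x y : ℝ) : ee (x + y) = ee x * ee y := by
  unfold ee; rw [mul_add, ei_add]

@[simp] theorem ee_zero : ee 0 = 1 := by unfold ee; simp

theorem ee_neg (x : ℝ) : ee (-x) = (ee x)⁻¹ := by unfold ee; rw [mul_neg, ei_neg]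

theorem ee_sub (x y : ℝ) : ee (x - y) = ee x * (ee y)⁻¹ := by
  rw [sub_eq_add_neg, ee_add, ee_neg]

theorem ee_ne_zero (x : ℝ) : ee x ≠ 0 := ei_ne_zero _

theorem conj_ee (x : ℝ) : (starRingEnd ℂ) (ee x) = ee (-x) := by
  unfold ee; rw [conj_ei, mul_neg]

theorem ee_int (n : ℤ) : ee (n : ℝ) = 1 := ei_two_pi_int n

theorem ee_nat (n : ℕ) : ee (n : ℝ) = 1 := by exact_mod_cast ee_int (n : ℤ)

theorem ee_add_int (x : ℝ) (n : ℤ) : ee (x + n) = ee x := by rw [ee_add, ee_int, mul_one]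

theorem ee_pow (x : ℝ) (n : ℕ) : ee x ^ n = ee (n * x) := by
  unfold ee; rw [ei_pow]; ring_nf

theorem continuous_ei : Continuous ei := by unfold ei; fun_prop

theorem continuous_ee : Continuous ee := by
  unfold ee; exact continuous_ei.comp (continuous_const.mul continuous_id)

theorem hasDerivAt_ei {h : ℝ → ℝ} {h' x : ℝ} (hh : HasDerivAt h h' x) :
    HasDerivAt (fun y => ei (h y)) (Complex.I * h' * ei (h x)) x := by
  unfold ei
  have h1 : HasDerivAt (fun y => ((h y : ℝ) : ℂ) * Complex.I) ((h' : ℂ) * Complex.I) x :=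
    (hh.ofReal_comp).mul_const Complex.I
  have h2 := h1.cexp
  refine h2.congr_deriv ?_
  ring

theorem norm_ei_sub_le (x y : ℝ) : ‖ei x - ei y‖ ≤ |x - y| := by
  have h1 : ei x - ei y = ei y * (ei (x - y) - 1) := by
    rw [ei_sub]; field_simp [ei_ne_zero]
  rw [h1, norm_mul, norm_ei, one_mul]
  have := Real.norm_exp_I_mul_ofReal_sub_one_le (x := x - y)
  unfold ei
  rw [mul_comm]
  simpa using this

theorem norm_ee_sub_le (x y : ℝ) : ‖ee x - ee y‖ ≤ 2 * Real.pi * |x - y| := by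
  unfold ee
  refine (norm_ei_sub_le _ _).trans ?_
  rw [← mul_sub, abs_mul, abs_of_pos Real.two_pi_pos]

/-! ### `nd` -/

theorem nd_nonneg (x : ℝ) : 0 ≤ nd x := abs_nonneg _

theorem nd_le_half (x : ℝ) : nd x ≤ 1 / 2 := abs_sub_round x

theorem nd_le (x : ℝ) (n : ℤ) : nd x ≤ |x - n| := round_le x n

theorem nd_le_abs (x : ℝ) : nd x ≤ |x| := by simpa using nd_le x 0

theorem nd_neg (x : ℝ) : nd (-x) = nd x := by
  apply le_antisymm
  · have := nd_le (-x) (-round x)
    have h2 : |-x - ((-round x : ℤ) : ℝ)| = nd x := by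
      unfold nd; rw [← abs_neg]; push_cast; congr 1; ring
    rw [h2] at this; exact this
  · have := nd_le x (-round (-x))
    have h2 : |x - ((-round (-x) : ℤ) : ℝ)| = nd (-x) := by
      unfold nd; rw [← abs_neg]; push_cast; congr 1; ring
    rw [h2] at this; exact this

theorem nd_add_int (x : ℝ) (n : ℤ) : nd (x + n) = nd x := by
  unfold nd; rw [round_add_intCast]; push_cast; congr 1; ring

theorem exists_int_nd (x : ℝ) : ∃ n : ℤ, nd x = |x - n| := ⟨round x, rfl⟩

/-! ### `mn` -/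

theorem mn_nonneg {A : ℝ} (hA : 0 ≤ A) (x : ℝ) : 0 ≤ mn A x := by unfold mn; positivity

theorem mn_le_left {A : ℝ} (hA : 0 ≤ A) (x : ℝ) : mn A x ≤ A := by
  unfold mn
  refine div_le_self hA ?_
  have := mul_nonneg hA (abs_nonneg x); linarith

theorem mn_le_inv {A x : ℝ} (hA : 0 ≤ A) (hx : x ≠ 0) : mn A x ≤ 1 / |x| := by
  unfold mn
  have hx' : 0 < |x| := abs_pos.mpr hx
  have h0 : 0 < 1 + A * |x| := by positivity
  rw [div_le_div_iff₀ h0 hx']
  linarith

theorem min_le_mn {A x : ℝ} (hA : 0 < A) (hx : x ≠ 0) : min A (1 / |x|) ≤ 2 * mn A x := by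
  unfold mn
  have hx' : 0 < |x| := abs_pos.mpr hx
  have h0 : 0 < 1 + A * |x| := by positivity
  rcases le_total (A * |x|) 1 with h | h
  · refine (min_le_left _ _).trans ?_
    rw [← mul_div_assoc, le_div_iff₀ h0]
    nlinarith
  · refine (min_le_right _ _).trans ?_
    rw [← mul_div_assoc, div_le_div_iff₀ hx' h0]
    linarith

theorem le_mn_of {A x B : ℝ} (hA : 0 < A) (h1 : B ≤ A) (h2 : B * |x| ≤ 1) :
    B ≤ 2 * mn A x := by
  unfold mn
  have h0 : 0 < 1 + A * |x| := by positivity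
  rw [← mul_div_assoc, le_div_iff₀ h0]
  nlinarith [abs_nonneg x]

@[simp] theorem mn_zero (A : ℝ) : mn A 0 = A := by unfold mn; simp

theorem mn_neg (A x : ℝ) : mn A (-x) = mn A x := by unfold mn; rw [abs_neg]

theorem mn_mono_left {A B : ℝ} (hA : 0 ≤ A) (hAB : A ≤ B) (x : ℝ) : mn A x ≤ mn B x := by
  unfold mn
  have h1 : 0 < 1 + A * |x| := by positivity
  have h2 : 0 < 1 + B * |x| := by have := hA.trans hAB; positivity
  rw [div_le_div_iff₀ h1 h2]
  nlinarith [abs_nonneg x]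

theorem mn_anti_right {A x y : ℝ} (hA : 0 ≤ A) (hxy : |x| ≤ |y|) : mn A y ≤ mn A x := by
  unfold mn
  have h1 : 0 < 1 + A * |x| := by positivity
  have h2 : 1 + A * |x| ≤ 1 + A * |y| := by gcongr
  exact div_le_div_of_nonneg_left hA h1 h2

/-! ### integration by parts -/

/-- `‖∫ p h' e^{ih}‖ ≤ |p(a)| + |p(b)| + ∫ |p'|`. -/
theorem norm_integral_deriv_ei_le {a b : ℝ} (hab : a ≤ b) {h h' p p' : ℝ → ℝ}
    (hh : ∀ x ∈ Set.Icc a b, HasDerivAt h (h' x) x) (hp : ∀ x ∈ Set.Icc a b, HasDerivAt p (p' x) x)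
    (ch : ContinuousOn h' (Set.Icc a b)) (cp : ContinuousOn p' (Set.Icc a b)) :
    ‖∫ x in a..b, ((p x * h' x : ℝ) : ℂ) * ei (h x)‖ ≤ |p a| + |p b| + ∫ x in a..b, |p' x| := by
  have huIcc : Set.uIcc a b = Set.Icc a b := Set.uIcc_of_le hab
  have chh : ContinuousOn h (Set.Icc a b) := fun x hx => (hh x hx).continuousAt.continuousWithinAt
  have cpp : ContinuousOn p (Set.Icc a b) := fun x hx => (hp x hx).continuousAt.continuousWithinAt
  have cei : ContinuousOn (fun x => ei (h x)) (Set.Icc a b) := continuous_ei.comp_continuousOn chh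
  have key : (∫ x in a..b, ((p x : ℝ) : ℂ) * (Complex.I * (h' x : ℂ) * ei (h x))) =
      ((p b : ℝ) : ℂ) * ei (h b) - ((p a : ℝ) : ℂ) * ei (h a) -
        ∫ x in a..b, ((p' x : ℝ) : ℂ) * ei (h x) := by
    apply intervalIntegral.integral_mul_deriv_eq_deriv_mul
    · intro x hx; rw [huIcc] at hx; exact (hp x hx).ofReal_comp
    · intro x hx; rw [huIcc] at hx; exact hasDerivAt_ei (hh x hx)
    · apply ContinuousOn.intervalIntegrable
      rw [huIcc]; exact Complex.continuous_ofReal.comp_continuousOn cp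
    · apply ContinuousOn.intervalIntegrable
      rw [huIcc]
      exact (continuousOn_const.mul (Complex.continuous_ofReal.comp_continuousOn ch)).mul cei
  have e1 : (∫ x in a..b, ((p x * h' x : ℝ) : ℂ) * ei (h x)) =
      -Complex.I * ∫ x in a..b, ((p x : ℝ) : ℂ) * (Complex.I * (h' x : ℂ) * ei (h x)) := by
    rw [← intervalIntegral.integral_const_mul]
    apply intervalIntegral.integral_congr
    intro x _
    simp only
    push_cast
    linear_combination (((p x : ℝ) : ℂ) * (h' x : ℂ) * ei (h x)) * Complex.I_mul_I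
  rw [e1, norm_mul, norm_neg, Complex.norm_I, one_mul, key]
  refine (norm_sub_le _ _).trans (add_le_add ((norm_sub_le _ _).trans ?_) ?_)
  · rw [norm_mul, norm_mul, norm_ei, norm_ei, mul_one, mul_one, Complex.norm_real,
      Complex.norm_real, Real.norm_eq_abs, Real.norm_eq_abs, add_comm]
  · refine (intervalIntegral.norm_integral_le_integral_norm hab).trans (le_of_eq ?_)
    apply intervalIntegral.integral_congr
    intro x _
    simp only
    rw [norm_mul, norm_ei, mul_one, Complex.norm_real, Real.norm_eq_abs]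

/-- monotone or antitone amplitude `p`, `|p| ≤ M` at the end points. -/
theorem norm_integral_deriv_ei_le' {a b M : ℝ} (hab : a ≤ b) {h h' p p' : ℝ → ℝ}
    (hh : ∀ x ∈ Set.Icc a b, HasDerivAt h (h' x) x) (hp : ∀ x ∈ Set.Icc a b, HasDerivAt p (p' x) x)
    (ch : ContinuousOn h' (Set.Icc a b)) (cp : ContinuousOn p' (Set.Icc a b))
    (hs : (∀ x ∈ Set.Icc a b, 0 ≤ p' x) ∨ (∀ x ∈ Set.Icc a b, p' x ≤ 0))
    (ha : |p a| ≤ M) (hb : |p b| ≤ M) :
    ‖∫ x in a..b, ((p x * h' x : ℝ) : ℂ) * ei (h x)‖ ≤ 4 * M := by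
  have huIcc : Set.uIcc a b = Set.Icc a b := Set.uIcc_of_le hab
  have h1 := norm_integral_deriv_ei_le hab hh hp ch cp
  have hint : IntervalIntegrable p' MeasureTheory.volume a b := by
    apply ContinuousOn.intervalIntegrable; rw [huIcc]; exact cp
  have hftc : ∫ x in a..b, p' x = p b - p a := by
    apply intervalIntegral.integral_eq_sub_of_hasDerivAt
    · intro x hx; rw [huIcc] at hx; exact hp x hx
    · exact hint
  have h2 : ∫ x in a..b, |p' x| ≤ 2 * M := by
    rcases hs with hs | hs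
    · have : ∫ x in a..b, |p' x| = ∫ x in a..b, p' x := by
        apply intervalIntegral.integral_congr
        intro x hx; rw [huIcc] at hx; exact abs_of_nonneg (hs x hx)
      rw [this, hftc]
      linarith [abs_le.mp ha, abs_le.mp hb]
    · have : ∫ x in a..b, |p' x| = ∫ x in a..b, -(p' x) := by
        apply intervalIntegral.integral_congr
        intro x hx; rw [huIcc] at hx; exact abs_of_nonpos (hs x hx)
      rw [this, intervalIntegral.integral_neg, hftc]
      linarith [abs_le.mp ha, abs_le.mp hb]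
  linarith

/-- first derivative test, amplitude one: `h'` monotone and `|h'| ≥ λ > 0` on `[a,b]`. -/
theorem norm_integral_ei_le {a b lam : ℝ} (hab : a ≤ b) (hl : 0 < lam) {h h' h'' : ℝ → ℝ}
    (hh : ∀ x ∈ Set.Icc a b, HasDerivAt h (h' x) x)
    (hh' : ∀ x ∈ Set.Icc a b, HasDerivAt h' (h'' x) x)
    (ch : ContinuousOn h'' (Set.Icc a b))
    (hs : (∀ x ∈ Set.Icc a b, 0 ≤ h'' x) ∨ (∀ x ∈ Set.Icc a b, h'' x ≤ 0))
    (hlam : ∀ x ∈ Set.Icc a b, lam ≤ |h' x|) :
    ‖∫ x in a..b, ei (h x)‖ ≤ 4 / lam := by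
  have ch' : ContinuousOn h' (Set.Icc a b) := fun x hx => (hh' x hx).continuousAt.continuousWithinAt
  have hne : ∀ x ∈ Set.Icc a b, h' x ≠ 0 := fun x hx => by
    have := hlam x hx
    exact abs_pos.mp (hl.trans_le this)
  have hM : ∀ x ∈ Set.Icc a b, |(h' x)⁻¹| ≤ lam⁻¹ := fun x hx => by
    rw [abs_inv]
    exact inv_anti₀ hl (hlam x hx)
  have key := norm_integral_deriv_ei_le' (M := lam⁻¹) (p := fun x => (h' x)⁻¹)
    (p' := fun x => -(h'' x) / (h' x) ^ 2) hab hh
    (fun x hx => (hh' x hx).inv (hne x hx)) ch'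
    (ch.neg.div (ch'.pow 2) (fun x hx => pow_ne_zero 2 (hne x hx)))
    (by
      rcases hs with hs | hs
      · right; intro x hx
        exact div_nonpos_of_nonpos_of_nonneg (neg_nonpos.mpr (hs x hx)) (sq_nonneg _)
      · left; intro x hx
        exact div_nonneg (neg_nonneg.mpr (hs x hx)) (sq_nonneg _))
    (hM a (Set.left_mem_Icc.mpr hab)) (hM b (Set.right_mem_Icc.mpr hab))
  have e : (∫ x in a..b, (((h' x)⁻¹ * h' x : ℝ) : ℂ) * ei (h x)) = ∫ x in a..b, ei (h x) := by
    apply intervalIntegral.integral_congr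
    intro x hx
    rw [Set.uIcc_of_le hab] at hx
    simp only
    rw [inv_mul_cancel₀ (hne x hx)]
    simp
  rw [e] at key
  rw [div_eq_mul_inv]
  exact key

theorem norm_integral_ei_le_length {a b : ℝ} (hab : a ≤ b) (h : ℝ → ℝ) :
    ‖∫ x in a..b, ei (h x)‖ ≤ b - a := by
  have := intervalIntegral.norm_integral_le_of_norm_le_const (a := a) (b := b) (C := 1)
    (f := fun x => ei (h x)) (fun x _ => (norm_ei _).le)
  rwa [one_mul, abs_of_nonneg (sub_nonneg.mpr hab)] at this

end Pool.Agent.H98.Cubic
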