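import Pool.Agent.H98.Cubic.Defs

/-!
Cubic moment of Hardy's function (`MP_56c76e_nt`): exact statements of the modules.
Each `T...` is a `Prop`; module authors prove `theorem ... : T...` (possibly from other `T...`).
-/

set_option autoImplicit false

open Finset

namespace Pool.Agent.H98.Cubic

/-! ### Part A: analytic tools -/

/-- [TP] truncated Poisson summation (van der Corput; Titchmarsh, Lemma 4.7). -/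
def TTP : Prop := ∃ C : ℝ, 0 < C ∧
  ∀ (a b : ℝ) (m₁ m₂ : ℤ) (f f' f'' φ φ' : ℝ → ℝ), a ≤ b → m₁ ≤ m₂ →
    (∀ x ∈ Set.Icc a b, HasDerivAt f (f' x) x) →
    (∀ x ∈ Set.Icc a b, HasDerivAt f' (f'' x) x) →
    (∀ x ∈ Set.Icc a b, HasDerivAt φ (φ' x) x) →
    ContinuousOn f'' (Set.Icc a b) → ContinuousOn φ' (Set.Icc a b) →
    (∀ x ∈ Set.Icc a b, (m₁ : ℝ) ≤ f' x ∧ f' x ≤ m₂) →
    ((∀ x ∈ Set.Icc a b, 0 ≤ f'' x) ∨ (∀ x ∈ Set.Icc a b, f'' x ≤ 0)) →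
    (∀ x ∈ Set.Icc a b, 0 ≤ φ x) → (∀ x ∈ Set.Icc a b, φ' x ≤ 0) →
    ‖∑ n ∈ Icc ⌈a⌉ ⌊b⌋, ((φ n : ℝ) : ℂ) * ee (f n) -
        ∑ ν ∈ Icc m₁ m₂, ∫ x in a..b, ((φ x : ℝ) : ℂ) * ee (f x - ν * x)‖
      ≤ C * φ a * (1 + Real.log (1 + (m₂ - m₁)))

/-- [Fres] incomplete Fresnel integrals. -/
def TFres : Prop := ∃ C : ℝ, 0 < C ∧ ∀ ε ρ y₁ y₂ : ℝ, 0 < ε → y₁ ≤ y₂ →
    ‖(∫ y in y₁..y₂, ee (ε * y ^ 2 / 2 - ρ * y)) -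
        (if y₁ ≤ ρ / ε ∧ ρ / ε ≤ y₂ then
          ((1 / Real.sqrt ε : ℝ) : ℂ) * ee (1 / 8 - ρ ^ 2 / (2 * ε)) else 0)‖
      ≤ C * (mn (1 / Real.sqrt ε) (ε * y₁ - ρ) + mn (1 / Real.sqrt ε) (ε * y₂ - ρ))

/-- [SP] stationary phase for `θ₀(t) - t log ξ` (stationary point `t = 2 π ξ²`). -/
def TSP : Prop := ∃ C : ℝ, 0 < C ∧ ∀ ξ t₁ t₂ : ℝ, 0 < ξ → 0 < t₁ → t₁ ≤ t₂ →
    ‖(∫ t in t₁..t₂, ei (th0 t - t * Real.log ξ)) -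
        (if t₁ ≤ 2 * Real.pi * ξ ^ 2 ∧ 2 * Real.pi * ξ ^ 2 ≤ t₂ then
          ((2 * Real.sqrt 2 * Real.pi * ξ : ℝ) : ℂ) * ee (1 / 16 - ξ ^ 2 / 2) else 0)‖
      ≤ C * (1 + mn ξ (Real.log (Real.sqrt (t₁ / (2 * Real.pi)) / ξ)) +
          mn ξ (Real.log (Real.sqrt (t₂ / (2 * Real.pi)) / ξ)))

/-- [Abel] removal of a monotone weight. -/
def TAbel : Prop := ∀ (ι : Type) (s : Finset ι) (v : ι → ℝ) (F : ι → ℂ) (φ : ℝ → ℝ) (M B : ℝ),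
    ((∀ i ∈ s, ∀ j ∈ s, v i ≤ v j → φ (v j) ≤ φ (v i)) ∨
      (∀ i ∈ s, ∀ j ∈ s, v i ≤ v j → φ (v i) ≤ φ (v j))) →
    (∀ i ∈ s, 0 ≤ φ (v i) ∧ φ (v i) ≤ M) → 0 ≤ M → 0 ≤ B →
    (∀ c : ℝ, ‖∑ i ∈ s.filter (fun i => v i ≤ c), F i‖ ≤ B) →
    ‖∑ i ∈ s, ((φ (v i) : ℝ) : ℂ) * F i‖ ≤ 2 * M * B

/-! ### Part B: zeta function -/

/-- [Z1] -/
def TZ1 : Prop := ∃ C : ℝ, 0 < C ∧ ∀ (t : ℝ) (X : ℕ), 1 ≤ t → 1 ≤ X →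
    ‖riemannZeta (1 / 2 + t * Complex.I) - ∑ n ∈ Icc 1 X, zt n t -
        (X : ℂ) ^ (1 / 2 - t * Complex.I) / (-1 / 2 + t * Complex.I)‖ ≤ C * t / Real.sqrt X

/-- [Z2] -/
def TZ2 : Prop := ∃ C : ℝ, 0 < C ∧ ∀ (t R : ℝ) (μ : ℕ), 1 ≤ t → t ≤ R → 1 ≤ μ →
    ‖(∫ u in (0 : ℝ)..R, ((1 / Real.sqrt u : ℝ) : ℂ) *
          ei (2 * Real.pi * μ * u - t * Real.log u)) -
        chiT t * (((1 / Real.sqrt μ : ℝ) : ℂ) * ei (t * Real.log μ))‖ ≤ C / Real.sqrt R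

/-- [Z3] Stirling for the argument of `Γ(1/4 + it/2)`. -/
def TZ3 : Prop := ∃ C : ℝ, 0 < C ∧ ∀ t : ℝ, 1 ≤ t → ‖eTheta t - ei (th0 t)‖ ≤ C / t

/-- [Z4] `χ(1/2+it) = exp (-2 i θ(t))`. -/
def TZ4 : Prop := ∃ C : ℝ, 0 < C ∧ ∀ t : ℝ, 1 ≤ t → ‖chiT t * eTheta t ^ 2 - 1‖ ≤ C / t

/-- [Zreal] -/
def TZreal : Prop := (∀ t : ℝ, ((Z t : ℝ) : ℂ) = eTheta t * riemannZeta (1 / 2 + t * Complex.I)) ∧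
    (∀ t : ℝ, ‖eTheta t‖ = 1) ∧ Continuous Z

/-- [AFE] Hardy's approximate functional equation with a weak error term
(uses TP, Z1, Z2, Z3, Z4, Zreal). -/
def TAFE : Prop := ∃ C : ℝ, 0 < C ∧ ∀ t : ℝ, 100 ≤ t →
    |Z t - 2 * (P t).re| ≤ C * t ^ (-(1 / 5) : ℝ)

/-! ### Part C: reduction to the exponential sum -/

/-- [Second] mean square of the Dirichlet polynomial with variable length. -/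
def TSecond : Prop := ∃ C : ℝ, 0 < C ∧ ∀ T : ℝ, 1 ≤ T →
    ∫ t in T..(2 * T), ‖P t‖ ^ 2 ≤ C * T * (1 + Real.log T)

/-- [Err] the sum of the error terms of [SP]. -/
def TErr : Prop := ∃ C : ℝ, 0 < C ∧ ∀ N : ℝ, 1 ≤ N →
    ∑ a ∈ Icc 1 ⌊Real.sqrt 2 * N⌋₊, ∑ b ∈ Icc 1 ⌊Real.sqrt 2 * N⌋₊,
      ∑ c ∈ Icc 1 ⌊Real.sqrt 2 * N⌋₊, 1 / Real.sqrt ((a : ℝ) * b * c) *
        (1 + mn ((a : ℝ) * b / c)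
              (Real.log (max N (max (a : ℝ) (max (b : ℝ) c)) / ((a : ℝ) * b / c))) +
          mn ((a : ℝ) * b / c) (Real.log (Real.sqrt 2 * N / ((a : ℝ) * b / c))))
      ≤ C * N ^ (7 / 4 : ℝ)

/-- [P3] the terms without stationary point; `T = 2 π N²`. -/
def TP3 : Prop := ∃ C : ℝ, 0 < C ∧ ∀ N : ℝ, 1 ≤ N →
    ‖∑ a ∈ Icc 1 ⌊Real.sqrt 2 * N⌋₊, ∑ b ∈ Icc 1 ⌊Real.sqrt 2 * N⌋₊,
      ∑ c ∈ Icc 1 ⌊Real.sqrt 2 * N⌋₊, ((1 / Real.sqrt ((a : ℝ) * b * c) : ℝ) : ℂ) *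
        ∫ t in (2 * Real.pi * (max N (max (a : ℝ) (max (b : ℝ) c))) ^ 2)..(2 * (2 * Real.pi * N ^ 2)),
          ei (3 * th0 t - t * Real.log ((a : ℝ) * b * c))‖
      ≤ C * N ^ (37 / 20 : ℝ)

/-- [Exp] expansion of the cubes into integrals over subintervals; `T = 2 π N²`. -/
def TExp : Prop := ∀ N : ℝ, 1 ≤ N →
    (∫ t in (2 * Real.pi * N ^ 2)..(2 * (2 * Real.pi * N ^ 2)), P t ^ 3) =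
      ∑ a ∈ Icc 1 ⌊Real.sqrt 2 * N⌋₊, ∑ b ∈ Icc 1 ⌊Real.sqrt 2 * N⌋₊,
        ∑ c ∈ Icc 1 ⌊Real.sqrt 2 * N⌋₊, ((1 / Real.sqrt ((a : ℝ) * b * c) : ℝ) : ℂ) *
          ∫ t in (2 * Real.pi * (max N (max (a : ℝ) (max (b : ℝ) c))) ^ 2)..(2 * (2 * Real.pi * N ^ 2)),
            ei (3 * th0 t - t * Real.log ((a : ℝ) * b * c)) ∧
    (∫ t in (2 * Real.pi * N ^ 2)..(2 * (2 * Real.pi * N ^ 2)),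
        P t ^ 2 * (starRingEnd ℂ) (P t)) =
      ∑ a ∈ Icc 1 ⌊Real.sqrt 2 * N⌋₊, ∑ b ∈ Icc 1 ⌊Real.sqrt 2 * N⌋₊,
        ∑ c ∈ Icc 1 ⌊Real.sqrt 2 * N⌋₊, ((1 / Real.sqrt ((a : ℝ) * b * c) : ℝ) : ℂ) *
          ∫ t in (2 * Real.pi * (max N (max (a : ℝ) (max (b : ℝ) c))) ^ 2)..(2 * (2 * Real.pi * N ^ 2)),
            ei (th0 t - t * Real.log ((a : ℝ) * b / c))

/-- [Red] the reduction (uses AFE, Second, SP, Err, P3, Exp). -/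
def TRed : Prop := ∃ C : ℝ, 0 < C ∧ ∀ N : ℝ, 10 ≤ N →
    |(∫ t in (2 * Real.pi * N ^ 2)..(2 * (2 * Real.pi * N ^ 2)), Z t ^ 3) -
        12 * Real.sqrt 2 * Real.pi * (ee (1 / 16) * (starRingEnd ℂ) (W N)).re|
      ≤ C * N ^ (19 / 10 : ℝ)

/-! ### Part D: the exponential sum -/

/-- [Gauss] finite Fourier expansion of `y ↦ e(p² y² / (2 q²))` with coefficients `≤ 1/q`. -/
def TGauss : Prop := ∀ p q : ℕ, 1 ≤ q → Nat.Coprime p q → ∃ w : ℤ → ℂ,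
    (∀ r : ℤ, w (r + ((2 * q ^ 2 : ℕ) : ℤ)) = w r) ∧ (∀ r : ℤ, ‖w r‖ ≤ 1 / q) ∧
    ∀ y : ℤ, ee ((y : ℝ) ^ 2 * ((p : ℝ) / q) ^ 2 / 2) =
      ∑ r ∈ range (2 * q ^ 2), w r * ee (-((r : ℝ) * y) / ((2 * q ^ 2 : ℕ) : ℝ))

/-- [LemQ] quadratic exponential sums with periodic coefficients (uses TP, Fres). -/
def TLemQ : Prop := ∃ C : ℝ, 0 < C ∧
  ∀ (D R : ℕ) (B L ε y₁ y₂ : ℝ) (w : ℤ → ℂ), 0 < D → 0 ≤ B →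
    (∀ r : ℤ, w (r + (D : ℤ)) = w r) → (∀ r : ℤ, ‖w r‖ ≤ B) → ε ≠ 0 →
    0 ≤ y₁ → y₂ ≤ L → 0 ≤ L → D * |ε| * L ≤ R →
    ‖∑ y ∈ Icc ⌈y₁⌉ ⌊y₂⌋,
          (∑ r ∈ range D, w r * ee (-((r : ℝ) * y) / (D : ℝ))) * ee (ε * (y : ℝ) ^ 2 / 2) -
        ∑ r ∈ (Icc (-(R : ℤ)) R).filter
            (fun r : ℤ => y₁ ≤ (r : ℝ) / (D * ε) ∧ (r : ℝ) / (D * ε) ≤ y₂),
          w r * ((1 / Real.sqrt |ε| : ℝ) : ℂ) * (if 0 < ε then ee (1 / 8) else ee (-1 / 8)) *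
            ee (-((r : ℝ) ^ 2) / (2 * (D : ℝ) ^ 2 * ε))‖
      ≤ C * B * (1 / Real.sqrt |ε| + D * (1 + Real.log D + Real.log (1 + |ε| * L)))

/-- [Pair] the inner sum over `y` for one pair `(k, u)`, `u/k = (p k + g)/(q k)`
(uses LemQ, Gauss). -/
def TPair : Prop := ∃ C : ℝ, 0 < C ∧ ∀ p q : ℕ, 1 ≤ q → q ≤ p → Nat.Coprime p q →
    ∃ w : ℤ → ℂ, (∀ r : ℤ, ‖w r‖ ≤ 1 / q) ∧
    ∀ (k : ℕ) (g : ℤ) (y₁ y₂ L : ℝ) (R : ℕ), 1 ≤ k → g ≠ 0 → 2 * |g| ≤ k → 0 ≤ y₁ → y₂ ≤ L →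
      0 ≤ L → 2 * (q : ℝ) ^ 2 * |ep p q g k| * L ≤ R →
      ‖Sy y₁ y₂ (((p : ℝ) * k + g) / (q * k)) -
          ∑ r ∈ (Icc (-(R : ℤ)) R).filter
              (fun r : ℤ => y₁ ≤ (r : ℝ) / (2 * (q : ℝ) ^ 2 * ep p q g k) ∧
                (r : ℝ) / (2 * (q : ℝ) ^ 2 * ep p q g k) ≤ y₂),
            w r * ((1 / Real.sqrt |ep p q g k| : ℝ) : ℂ) * sg g *
              ee (-((r : ℝ) ^ 2) / (8 * (q : ℝ) ^ 4 * ep p q g k))‖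
        ≤ C * (1 / (q * Real.sqrt |ep p q g k|) +
            q * (1 + Real.log q + Real.log (1 + |ep p q g k| * L)))

open scoped Classical in
/-- [Ksum] the sum over `k` in a residue class mod `q` and an order connected set. -/
def TKsum : Prop := ∃ C : ℝ, 0 < C ∧ ∀ (p q K₀ : ℕ) (g r : ℤ) (O : Set ℕ),
    1 ≤ q → q ≤ p → Nat.Coprime p q → q ≤ K₀ → g ≠ 0 → 2 * |g| ≤ K₀ → O.OrdConnected →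
    ‖∑ k ∈ (Ico K₀ (2 * K₀)).filter (fun k : ℕ => (q : ℤ) ∣ (p : ℤ) * k + g ∧ k ∈ O),
        ((1 / Real.sqrt |ep p q g k| : ℝ) : ℂ) *
          ee (-((r : ℝ) ^ 2) / (8 * (q : ℝ) ^ 4 * ep p q g k))‖
      ≤ C * (q * Real.sqrt ((K₀ : ℝ) / (p * |(g : ℝ)|))) *
          (((K₀ : ℝ) / q) / (1 + ((K₀ : ℝ) / q) *
            nd ((r : ℝ) ^ 2 / (16 * p * |(g : ℝ)| * q)) /
              (1 + (r : ℝ) ^ 2 * |(g : ℝ)| / ((p : ℝ) ^ 3 * (q : ℝ) ^ 2 * K₀))))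

/-- [Count] counting by the divisor function. -/
def TCount : Prop := ∃ C : ℝ, 0 < C ∧ ∀ (ρ L V D : ℝ) (G : ℕ), 0 < ρ → 1 ≤ L → 1 ≤ V → 1 ≤ G →
    (∀ n : ℕ, 1 ≤ n → (n : ℝ) ≤ ρ + G → (n.divisors.card : ℝ) ≤ D) →
    ∑ g ∈ (Icc 1 G).filter (fun g : ℕ => (1 : ℝ) / 2 ≤ ρ / g), L / (1 + L * nd (ρ / g) / V)
      ≤ C * D * (L + G * V * (1 + Real.log G))

/-- [Ord] the conditions on the stationary point are order connected in `k`, and bounds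
for `r`. -/
def TOrd : Prop := ∀ (N c₁ : ℝ) (p q K₀ Y : ℕ) (g r : ℤ), 1 ≤ N → 1 ≤ q → q ≤ p → 1 ≤ K₀ →
    g ≠ 0 → 2 * |g| ≤ K₀ →
    {k : ℕ | K₀ ≤ k ∧ yLo N Y p q g k ≤ (r : ℝ) / (2 * (q : ℝ) ^ 2 * ep p q g k) ∧
      (r : ℝ) / (2 * (q : ℝ) ^ 2 * ep p q g k) ≤ yHi N c₁ Y p q g k}.OrdConnected ∧
    ∀ k : ℕ, K₀ ≤ k → k < 2 * K₀ →
      yLo N Y p q g k ≤ (r : ℝ) / (2 * (q : ℝ) ^ 2 * ep p q g k) →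
      (r : ℝ) / (2 * (q : ℝ) ^ 2 * ep p q g k) ≤ yHi N c₁ Y p q g k →
      0 < r * g ∧ 3 * (p : ℝ) * |(g : ℝ)| ≤ |(r : ℝ)| ∧
        |(r : ℝ)| * K₀ ≤ 10 * p * |(g : ℝ)| * Y

open scoped Classical in
/-- [Fix] the main terms for a fixed fraction `p/q` (uses Ksum, Count, Ord). -/
def TFix : Prop := ∃ C : ℝ, 0 < C ∧
  ∀ (N c₁ D : ℝ) (p q K₀ Y G R : ℕ) (w : ℤ → ℂ) (O : ℤ → Set ℕ),
    1 ≤ N → 1 ≤ q → q ≤ p → Nat.Coprime p q → q ≤ K₀ → 1 ≤ Y → 1 ≤ G → 2 * G ≤ K₀ →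
    (∀ r : ℤ, ‖w r‖ ≤ 1 / q) → (∀ g : ℤ, g ≠ 0 → (O g).OrdConnected) →
    (∀ n : ℕ, 1 ≤ n → (n : ℝ) ≤ 10 * p * (G : ℝ) ^ 2 * (Y : ℝ) ^ 2 / (q * (K₀ : ℝ) ^ 2) + G →
      (n.divisors.card : ℝ) ≤ D) →
    ‖∑ g ∈ (Icc (-(G : ℤ)) G).erase 0,
        ∑ k ∈ (Ico K₀ (2 * K₀)).filter (fun k : ℕ => (q : ℤ) ∣ (p : ℤ) * k + g ∧ k ∈ O g),
          ∑ r ∈ (Icc (-(R : ℤ)) R).filter
              (fun r : ℤ => yLo N Y p q g k ≤ (r : ℝ) / (2 * (q : ℝ) ^ 2 * ep p q g k) ∧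
                (r : ℝ) / (2 * (q : ℝ) ^ 2 * ep p q g k) ≤ yHi N c₁ Y p q g k),
            w r * ((1 / Real.sqrt |ep p q g k| : ℝ) : ℂ) * sg g *
              ee (-((r : ℝ) ^ 2) / (8 * (q : ℝ) ^ 4 * ep p q g k))‖
      ≤ C * D * (Y * Real.sqrt ((p : ℝ) * G / K₀)) *
          ((K₀ : ℝ) / q + G * (1 + (G : ℝ) ^ 3 * (Y : ℝ) ^ 2 / (p * (q : ℝ) ^ 2 * (K₀ : ℝ) ^ 3)) *
            (1 + Real.log G))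

open scoped Classical in
/-- [QP] everything for a fixed fraction `p/q` (uses Pair, Fix). -/
def TQP : Prop := ∃ C : ℝ, 0 < C ∧
  ∀ (N c₁ D : ℝ) (p q K₀ Y G : ℕ) (O : ℤ → Set ℕ),
    1 ≤ N → 1 ≤ q → q ≤ p → Nat.Coprime p q → q ≤ K₀ → 1 ≤ Y → 1 ≤ G → 2 * G ≤ K₀ →
    (∀ g : ℤ, g ≠ 0 → (O g).OrdConnected) →
    (∀ n : ℕ, 1 ≤ n → (n : ℝ) ≤ 10 * p * (G : ℝ) ^ 2 * (Y : ℝ) ^ 2 / (q * (K₀ : ℝ) ^ 2) + G →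
      (n.divisors.card : ℝ) ≤ D) →
    ‖∑ g ∈ Icc (-(G : ℤ)) G,
        ∑ k ∈ (Ico K₀ (2 * K₀)).filter (fun k : ℕ => (q : ℤ) ∣ (p : ℤ) * k + g ∧ k ∈ O g),
          Sy (yLo N Y p q g k) (yHi N c₁ Y p q g k) (((p : ℝ) * k + g) / (q * k))‖
      ≤ C * (D * (Y * Real.sqrt ((p : ℝ) * G / K₀)) *
            ((K₀ : ℝ) / q + G *
              (1 + (G : ℝ) ^ 3 * (Y : ℝ) ^ 2 / (p * (q : ℝ) ^ 2 * (K₀ : ℝ) ^ 3)) *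
              (1 + Real.log G)) +
          (K₀ : ℝ) / q * Y + (K₀ : ℝ) / q * Real.sqrt ((K₀ : ℝ) * G / p) +
          K₀ * G * (1 + Real.log (p * Y)))

/-- [Farey] -/
def TFarey : Prop :=
    (∀ Q ξ : ℝ, 1 ≤ Q → ∃ q : ℕ, IsDen Q ξ q ∧ (q : ℝ) ≤ Q) ∧
    (∀ (Q ξ : ℝ) (q : ℕ), 1 ≤ Q → IsDen Q ξ q → Int.gcd (round (q * ξ)) q = 1) ∧
    (∀ (Q : ℝ) (p q : ℕ) (g : ℤ), 4 ≤ Q → 1 ≤ q → (q : ℝ) ≤ Q → Nat.Coprime p q → g ≠ 0 →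
      {k : ℕ | 1 ≤ k ∧ IsDen Q (((p : ℝ) * k + g) / (q * k)) q ∧
        |(g : ℝ)| * Q ≤ k}.OrdConnected)

/-- the order connected sets used in the decomposition. -/
def OO (Q c₂ c₃ : ℝ) (p q : ℕ) (g : ℤ) : Set ℕ :=
  {k : ℕ | (1 ≤ k ∧ IsDen Q (((p : ℝ) * k + g) / (q * k)) q ∧ |(g : ℝ)| * Q ≤ k) ∧
    (k : ℝ) ≤ ((p : ℝ) * k + g) / q ∧ ((p : ℝ) * k + g) / q ≤ c₂ ∧ (k : ℝ) ≤ c₃}

open scoped Classical in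
/-- [Dec] decomposition of the box sum (uses Farey). -/
def TDec : Prop := ∀ (N Q c₁ c₂ c₃ : ℝ) (K₀ Y G : ℕ), 1 ≤ N → 4 ≤ Q → 1 ≤ K₀ → 1 ≤ Y →
    2 * K₀ ≤ Q * (G + 1) →
    (∀ (p q : ℕ) (g : ℤ), 1 ≤ q → (q : ℝ) ≤ Q → Nat.Coprime p q → g ≠ 0 →
      (OO Q c₂ c₃ p q g).OrdConnected) ∧
    BS N K₀ Y c₁ c₂ c₃ = ∑ q ∈ Icc 1 ⌊Q⌋₊,
      ∑ p ∈ (Icc q ⌊3 * q * N / Y⌋₊).filter (fun p : ℕ => Nat.Coprime p q),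
        ∑ g ∈ Icc (-(G : ℤ)) G,
          ∑ k ∈ (Ico K₀ (2 * K₀)).filter
              (fun k : ℕ => (q : ℤ) ∣ (p : ℤ) * k + g ∧ k ∈ OO Q c₂ c₃ p q g),
            Sy (yLo N Y p q g k) (yHi N c₁ Y p q g k) (((p : ℝ) * k + g) / (q * k))

/-- [Div] the divisor bound. -/
def TDiv : Prop := ∀ ε : ℝ, 0 < ε → ∃ C : ℝ, 0 < C ∧ ∀ n : ℕ, 1 ≤ n →
    (n.divisors.card : ℝ) ≤ C * (n : ℝ) ^ ε

/-- [Box] the bound for box sums (uses Dec, QP, Div). -/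
def TBox : Prop := ∀ ε : ℝ, 0 < ε → ∃ C : ℝ, 0 < C ∧ ∀ (N : ℝ) (K₀ Y : ℕ) (c₁ c₂ c₃ : ℝ),
    1 ≤ N → 1 ≤ Y → N ^ (2 / 5 : ℝ) ≤ K₀ →
    ‖BS N K₀ Y c₁ c₂ c₃‖ ≤ C * N ^ ε * (K₀ * N ^ (7 / 5 : ℝ))

/-- [W] the bound for the exponential sum (uses Box, Abel). -/
def TW : Prop := ∀ ε : ℝ, 0 < ε → ∃ C : ℝ, 0 < C ∧ ∀ N : ℝ, 1 ≤ N →
    ‖W N‖ ≤ C * N ^ (19 / 10 + ε : ℝ)

/-! ### Final -/

/-- [Final] (uses Red, W, Zreal). -/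
def TFinal : Prop := ∀ ε : ℝ, 0 < ε →
    (fun T : ℝ => ∫ t in (0 : ℝ)..T, Z t ^ 3) =O[Filter.atTop]
      fun T : ℝ => T ^ (19 / 20 + ε : ℝ)

end Pool.Agent.H98.Cubic
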