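import Mathlib

/-!
Cubic moment of Hardy's function (`MP_56c76e_nt`): definitions.
-/

set_option autoImplicit false

open Finset

namespace Pool.Agent.H98.Cubic

/-- `exp (i x)` for real `x`. -/
noncomputable def ei (x : ℝ) : ℂ := Complex.exp ((x : ℂ) * Complex.I)

/-- `e(x) = exp (2 π i x)` for real `x`. -/
noncomputable def ee (x : ℝ) : ℂ := ei (2 * Real.pi * x)

/-- distance to the nearest integer. -/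
noncomputable def nd (x : ℝ) : ℝ := |x - round x|

/-- a smooth form of `min A (1 / |x|)`; for `0 ≤ A` one has
`mn A x ≤ A`, `mn A x ≤ 1 / |x|` (`x ≠ 0`), and `min A (1/|x|) ≤ 2 * mn A x`. -/
noncomputable def mn (A x : ℝ) : ℝ := A / (1 + A * |x|)

/-- `exp (i θ(t)) = π^{-it/2} Γ(1/4 + it/2) / |Γ(1/4 + it/2)|`. -/
noncomputable def eTheta (t : ℝ) : ℂ :=
  (Real.pi : ℂ) ^ (-(t * Complex.I) / 2) *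
    (Complex.Gamma (1 / 4 + t * Complex.I / 2) / ‖Complex.Gamma (1 / 4 + t * Complex.I / 2)‖)

/-- Hardy's function `Z(t) = exp (i θ(t)) ζ(1/2 + it)` (it is real, see `TZreal`). -/
noncomputable def Z (t : ℝ) : ℝ := (eTheta t * riemannZeta (1 / 2 + t * Complex.I)).re

/-- the main term of `θ(t)`. -/
noncomputable def th0 (t : ℝ) : ℝ :=
  t / 2 * Real.log (t / (2 * Real.pi)) - t / 2 - Real.pi / 8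

/-- `n^{-1/2-it}`. -/
noncomputable def zt (n : ℕ) (t : ℝ) : ℂ := ((1 / Real.sqrt n : ℝ) : ℂ) * ei (-(t * Real.log n))

/-- `A(t) = ∑_{n ≤ √(t/2π)} n^{-1/2-it}`. -/
noncomputable def A (t : ℝ) : ℂ := ∑ n ∈ Icc 1 ⌊Real.sqrt (t / (2 * Real.pi))⌋₊, zt n t

/-- `P(t) = exp (i θ₀(t)) A(t)`, so that `Z(t) = 2 Re P(t) + small`. -/
noncomputable def P (t : ℝ) : ℂ := ei (th0 t) * A t

/-- `Γ(1/2 - it) (2π)^{-1/2+it} exp (π t / 2) exp (i π / 4)`, which is `χ(1/2+it)` up to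
`O(exp (-π t))`. -/
noncomputable def chiT (t : ℝ) : ℂ :=
  Complex.Gamma (1 / 2 - t * Complex.I) * (2 * Real.pi : ℂ) ^ (-1 / 2 + t * Complex.I) *
    (Real.exp (Real.pi * t / 2) : ℂ) * ei (Real.pi / 4)

/-- The exponential sum
`W(N) = ∑_{k ≤ y,u; N ≤ yu/k ≤ √2 N} (yu)^{1/2} k^{-3/2} e(y² u² / (2 k²))`. -/
noncomputable def W (N : ℝ) : ℂ :=
  ∑ x ∈ ((Icc 1 ⌊Real.sqrt 2 * N⌋₊) ×ˢ ((Icc 1 ⌊Real.sqrt 2 * N⌋₊) ×ˢ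
      (Icc 1 ⌊Real.sqrt 2 * N⌋₊))).filter (fun x : ℕ × ℕ × ℕ =>
        x.1 ≤ x.2.1 ∧ x.1 ≤ x.2.2 ∧ N * x.1 ≤ (x.2.1 : ℝ) * x.2.2 ∧
          (x.2.1 : ℝ) * x.2.2 ≤ Real.sqrt 2 * N * x.1),
    ((Real.sqrt x.2.1 * Real.sqrt x.2.2 / (x.1 * Real.sqrt x.1) : ℝ) : ℂ) *
      ee ((x.2.1 : ℝ) ^ 2 * (x.2.2 : ℝ) ^ 2 / (2 * (x.1 : ℝ) ^ 2))

/-- The unweighted box sum with sharp cutoffs: `k = x.1 ∈ [K₀, 2K₀)`, `y = x.2.1 ∈ [Y, 2Y)`,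
`u = x.2.2`. -/
noncomputable def BS (N : ℝ) (K₀ Y : ℕ) (c₁ c₂ c₃ : ℝ) : ℂ :=
  ∑ x ∈ ((Ico K₀ (2 * K₀)) ×ˢ ((Ico Y (2 * Y)) ×ˢ
      (Icc 1 ⌊Real.sqrt 2 * N⌋₊))).filter (fun x : ℕ × ℕ × ℕ =>
        (x.1 ≤ x.2.1 ∧ x.1 ≤ x.2.2 ∧ N * x.1 ≤ (x.2.1 : ℝ) * x.2.2 ∧
          (x.2.1 : ℝ) * x.2.2 ≤ Real.sqrt 2 * N * x.1) ∧
        (x.2.1 : ℝ) ≤ c₁ ∧ (x.2.2 : ℝ) ≤ c₂ ∧ (x.1 : ℝ) ≤ c₃),
    ee ((x.2.1 : ℝ) ^ 2 * (x.2.2 : ℝ) ^ 2 / (2 * (x.1 : ℝ) ^ 2))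

/-- `ε' = (u/k)² - (p/q)²` where `u = (p k + g)/q`. -/
noncomputable def ep (p q : ℕ) (g : ℤ) (k : ℕ) : ℝ :=
  (((p : ℝ) * k + g) / (q * k)) ^ 2 - ((p : ℝ) / q) ^ 2

/-- the sign factor `e(sgn(g)/8)`. -/
noncomputable def sg (g : ℤ) : ℂ := if 0 < g then ee (1 / 8) else ee (-1 / 8)

/-- lower end of the `y`-range, `u = (p k + g)/q`: `max (Y, k, N k / u)`. -/
noncomputable def yLo (N : ℝ) (Y p q : ℕ) (g : ℤ) (k : ℕ) : ℝ :=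
  max (max (Y : ℝ) k) (N * (q * k) / (p * k + g))

/-- upper end of the `y`-range, `u = (p k + g)/q`: `min (2 Y - 1, c₁, √2 N k / u)`. -/
noncomputable def yHi (N c₁ : ℝ) (Y p q : ℕ) (g : ℤ) (k : ℕ) : ℝ :=
  min (min (2 * (Y : ℝ) - 1) c₁) (Real.sqrt 2 * N * (q * k) / (p * k + g))

/-- the inner sum over `y`. -/
noncomputable def Sy (y₁ y₂ ξ : ℝ) : ℂ :=
  ∑ y ∈ Icc ⌈y₁⌉ ⌊y₂⌋, ee ((y : ℝ) ^ 2 * ξ ^ 2 / 2)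

/-- `q` is the least positive integer with `‖q ξ‖ ≤ 1/Q`. -/
def IsDen (Q ξ : ℝ) (q : ℕ) : Prop :=
  1 ≤ q ∧ nd (q * ξ) ≤ 1 / Q ∧ ∀ q' : ℕ, 1 ≤ q' → q' < q → 1 / Q < nd (q' * ξ)

end Pool.Agent.H98.Cubic
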