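import Pool.Agent.H98.Cubic.Targets
import Pool.Agent.H98.Cubic.Basic

/-! Cubic moment of Hardy's function: module [Fix]. -/

set_option autoImplicit false

open Finset

namespace Pool.Agent.H98.Cubic

theorem sum_int_le (G : ℕ) (f : ℤ → ℝ) (hf : ∀ g, 0 ≤ f g) :
    ∑ g ∈ (Icc (-(G : ℤ)) G).erase 0, f g ≤
      ∑ n ∈ Icc 1 G, f (n : ℤ) + ∑ n ∈ Icc 1 G, f (-(n : ℤ)) := by
  have hsub : (Icc (-(G : ℤ)) G).erase 0 ⊆
      ((Icc 1 G).image (fun n : ℕ => (n : ℤ))) ∪ ((Icc 1 G).image (fun n : ℕ => -(n : ℤ))) := by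
    intro g hg
    rw [mem_erase, mem_Icc] at hg
    rw [mem_union, mem_image, mem_image]
    rcases lt_or_gt_of_ne hg.1 with h | h
    · right
      refine ⟨g.natAbs, ?_, ?_⟩
      · rw [mem_Icc]; omega
      · omega
    · left
      refine ⟨g.natAbs, ?_, ?_⟩
      · rw [mem_Icc]; omega
      · omega
  refine (sum_le_sum_of_subset_of_nonneg hsub (fun g _ _ => hf g)).trans ?_
  have h1 : ∑ g ∈ ((Icc 1 G).image (fun n : ℕ => (n : ℤ))) ∪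
      ((Icc 1 G).image (fun n : ℕ => -(n : ℤ))), f g ≤
      ∑ g ∈ ((Icc 1 G).image (fun n : ℕ => (n : ℤ))), f g +
      ∑ g ∈ ((Icc 1 G).image (fun n : ℕ => -(n : ℤ))), f g := by
    rw [← sum_union_inter]
    exact le_add_of_nonneg_right (sum_nonneg (fun g _ => hf g))
  refine h1.trans (le_of_eq ?_)
  rw [sum_image (by intro a _ b _ h; simpa using h), sum_image (by intro a _ b _ h; simpa using h)]

theorem sum_inv_sqrt_le (R : ℕ) : ∑ m ∈ Icc 1 R, 1 / Real.sqrt m ≤ 2 * Real.sqrt R := by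
  induction R with
  | zero => simp
  | succ n ih =>
    rw [sum_Icc_succ_top (by omega)]
    have hpos : 0 < Real.sqrt ((n + 1 : ℕ) : ℝ) := Real.sqrt_pos.mpr (by positivity)
    have h1 : 1 / Real.sqrt ((n + 1 : ℕ) : ℝ) + 2 * Real.sqrt n ≤ 2 * Real.sqrt ((n + 1 : ℕ) : ℝ) := by
      have hs1 : Real.sqrt ((n + 1 : ℕ) : ℝ) ^ 2 = n + 1 := by
        rw [Real.sq_sqrt (by positivity)]; push_cast; ring
      have hs2 : Real.sqrt (n : ℝ) ^ 2 = n := Real.sq_sqrt (by positivity)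
      have h0 : 0 ≤ Real.sqrt (n : ℝ) := Real.sqrt_nonneg _
      rw [div_add' _ _ _ hpos.ne', div_le_iff₀ hpos]
      nlinarith [sq_nonneg (Real.sqrt ((n + 1 : ℕ) : ℝ) - Real.sqrt (n : ℝ))]
    linarith


theorem norm_sg (g : ℤ) : ‖sg g‖ = 1 := by
  unfold sg; split_ifs <;> exact norm_ee _

/-- real inequality used in `fix_step`. -/
theorem fix_real {C1 p q K g r Y G n0 W X : ℝ} (hC1 : 0 < C1) (hq : 0 < q) (hp : 0 < p)
    (hK : 0 < K) (hY : 0 < Y) (hg : 1 ≤ g) (hgG : g ≤ G) (hr : 0 < r) (hn0 : 0 ≤ n0)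
    (hb : r * K ≤ 10 * p * g * Y) (hW2 : W ≤ 1 / q)
    (hX : X ≤ C1 * (q * Real.sqrt (K / (p * g))) * ((K / q) / (1 + (K / q) * n0 /
              (1 + r ^ 2 * g / (p ^ 3 * q ^ 2 * K))))) (hX0 : 0 ≤ X) :
    W * X ≤ C1 * Real.sqrt (10 * Y / r) * ((K / q) / (1 + (K / q) * n0 /
          (100 * (1 + G ^ 3 * Y ^ 2 / (p * q ^ 2 * K ^ 3))))) := by
  have hg0 : 0 < g := by linarith
  have hG0 : 0 < G := by linarith
  have hV0 : 1 + r ^ 2 * g / (p ^ 3 * q ^ 2 * K) ≤ 100 * (1 + G ^ 3 * Y ^ 2 / (p * q ^ 2 * K ^ 3)) := by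
    have h1 : r ^ 2 * K ^ 2 ≤ (10 * p * g * Y) ^ 2 := by
      rw [← mul_pow]
      exact pow_le_pow_left₀ (by positivity) hb 2
    have h2 : r ^ 2 * g / (p ^ 3 * q ^ 2 * K) ≤ 100 * (G ^ 3 * Y ^ 2 / (p * q ^ 2 * K ^ 3)) := by
      rw [← mul_div_assoc, div_le_div_iff₀ (by positivity) (by positivity)]
      have h3 : g ^ 3 ≤ G ^ 3 := pow_le_pow_left₀ hg0.le hgG 3
      have h4 : 0 ≤ g * (p * q ^ 2 * K) := by positivity
      have h5 : 0 ≤ 100 * Y ^ 2 * (p ^ 3 * q ^ 2 * K) := by positivity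
      calc r ^ 2 * g * (p * q ^ 2 * K ^ 3)
          = (r ^ 2 * K ^ 2) * (g * (p * q ^ 2 * K)) := by ring
        _ ≤ (10 * p * g * Y) ^ 2 * (g * (p * q ^ 2 * K)) :=
            mul_le_mul_of_nonneg_right h1 h4
        _ = g ^ 3 * (100 * Y ^ 2 * (p ^ 3 * q ^ 2 * K)) := by ring
        _ ≤ G ^ 3 * (100 * Y ^ 2 * (p ^ 3 * q ^ 2 * K)) :=
            mul_le_mul_of_nonneg_right h3 h5
        _ = 100 * (G ^ 3 * Y ^ 2) * (p ^ 3 * q ^ 2 * K) := by ring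
    linarith
  have hV0pos : 0 < 1 + r ^ 2 * g / (p ^ 3 * q ^ 2 * K) := by positivity
  have hS1 : Real.sqrt (K / (p * g)) ≤ Real.sqrt (10 * Y / r) := by
    apply Real.sqrt_le_sqrt
    rw [div_le_div_iff₀ (by positivity) hr]
    linarith
  generalize hA : 1 + r ^ 2 * g / (p ^ 3 * q ^ 2 * K) = V0 at hV0 hV0pos hX
  generalize hB : 100 * (1 + G ^ 3 * Y ^ 2 / (p * q ^ 2 * K ^ 3)) = V1 at hV0 ⊢
  have hV1 : 0 < V1 := hV0pos.trans_le hV0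
  have hL : 0 < K / q := by positivity
  have hF : (K / q) / (1 + (K / q) * n0 / V0) ≤ (K / q) / (1 + (K / q) * n0 / V1) := by
    apply div_le_div_of_nonneg_left hL.le (by positivity)
    have : (K / q) * n0 / V1 ≤ (K / q) * n0 / V0 :=
      div_le_div_of_nonneg_left (by positivity) hV0pos hV0
    linarith
  have hF0 : 0 ≤ (K / q) / (1 + (K / q) * n0 / V0) := by positivity
  calc W * X ≤ (1 / q) * (C1 * (q * Real.sqrt (K / (p * g))) *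
          ((K / q) / (1 + (K / q) * n0 / V0))) := mul_le_mul hW2 hX hX0 (by positivity)
    _ = C1 * Real.sqrt (K / (p * g)) * ((K / q) / (1 + (K / q) * n0 / V0)) := by
        have : (1 / q) * q = 1 := by field_simp
        calc (1 / q) * (C1 * (q * Real.sqrt (K / (p * g))) *
          ((K / q) / (1 + (K / q) * n0 / V0))) = ((1 / q) * q) * (C1 * Real.sqrt (K / (p * g)) * ((K / q) / (1 + (K / q) * n0 / V0))) := by ring
          _ = _ := by rw [this, one_mul]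
    _ ≤ C1 * Real.sqrt (10 * Y / r) * ((K / q) / (1 + (K / q) * n0 / V1)) :=
        mul_le_mul (mul_le_mul_of_nonneg_left hS1 hC1.le) hF hF0 (by positivity)

open scoped Classical in
theorem fix_step {C1 : ℝ} (hC1 : 0 < C1) (hK : ∀ (p q K₀ : ℕ) (g r : ℤ) (O : Set ℕ),
    1 ≤ q → q ≤ p → Nat.Coprime p q → q ≤ K₀ → g ≠ 0 → 2 * |g| ≤ K₀ → O.OrdConnected →
    ‖∑ k ∈ (Ico K₀ (2 * K₀)).filter (fun k : ℕ => (q : ℤ) ∣ (p : ℤ) * k + g ∧ k ∈ O),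
        ((1 / Real.sqrt |ep p q g k| : ℝ) : ℂ) *
          ee (-((r : ℝ) ^ 2) / (8 * (q : ℝ) ^ 4 * ep p q g k))‖
      ≤ C1 * (q * Real.sqrt ((K₀ : ℝ) / (p * |(g : ℝ)|))) *
          (((K₀ : ℝ) / q) / (1 + ((K₀ : ℝ) / q) *
            nd ((r : ℝ) ^ 2 / (16 * p * |(g : ℝ)| * q)) /
              (1 + (r : ℝ) ^ 2 * |(g : ℝ)| / ((p : ℝ) ^ 3 * (q : ℝ) ^ 2 * K₀)))))
    (hO : TOrd) (N c₁ : ℝ) (p q K₀ Y G : ℕ) (g r : ℤ) (w : ℂ) (O : Set ℕ)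
    (hN : 1 ≤ N) (hq : 1 ≤ q) (hqp : q ≤ p) (hcop : Nat.Coprime p q) (hqK : q ≤ K₀) (hY : 1 ≤ Y)
    (hg : g ≠ 0) (hgG : |g| ≤ G) (hGK : 2 * G ≤ K₀) (hw : ‖w‖ ≤ 1 / q) (hOO : O.OrdConnected) :
    ‖∑ k ∈ ((Ico K₀ (2 * K₀)).filter
          (fun k : ℕ => (q : ℤ) ∣ (p : ℤ) * k + g ∧ k ∈ O)).filter
            (fun k : ℕ => yLo N Y p q g k ≤ (r : ℝ) / (2 * (q : ℝ) ^ 2 * ep p q g k) ∧
                (r : ℝ) / (2 * (q : ℝ) ^ 2 * ep p q g k) ≤ yHi N c₁ Y p q g k),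
          w * ((1 / Real.sqrt |ep p q g k| : ℝ) : ℂ) * sg g *
              ee (-((r : ℝ) ^ 2) / (8 * (q : ℝ) ^ 4 * ep p q g k))‖ ≤
      if 0 < r * g ∧ 3 * (p : ℝ) * |(g : ℝ)| ≤ |(r : ℝ)| ∧ |(r : ℝ)| * K₀ ≤ 10 * p * |(g : ℝ)| * Y
      then C1 * Real.sqrt (10 * Y / |(r : ℝ)|) * (((K₀ : ℝ) / q) / (1 + ((K₀ : ℝ) / q) *
        nd ((r : ℝ) ^ 2 / (16 * p * |(g : ℝ)| * q)) /
          (100 * (1 + (G : ℝ) ^ 3 * (Y : ℝ) ^ 2 / (p * (q : ℝ) ^ 2 * (K₀ : ℝ) ^ 3))))) else 0 := by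
  have hq' : (0 : ℝ) < q := by exact_mod_cast hq
  have hp' : (0 : ℝ) < p := by exact_mod_cast hq.trans hqp
  have hK1 : 1 ≤ K₀ := hq.trans hqK
  have hK0' : (0 : ℝ) < K₀ := by exact_mod_cast hK1
  have hY' : (0 : ℝ) < Y := by exact_mod_cast hY
  have hgK : 2 * |g| ≤ (K₀ : ℤ) := by
    have : 2 * (G : ℤ) ≤ K₀ := by exact_mod_cast hGK
    linarith
  have hgR : (1 : ℝ) ≤ |(g : ℝ)| := by
    have : 1 ≤ |g| := Int.one_le_abs hg
    exact_mod_cast this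
  have hgG' : |(g : ℝ)| ≤ G := by exact_mod_cast hgG
  obtain ⟨hOrd, hBd⟩ := hO N c₁ p q K₀ Y g r hN hq hqp hK1 hg hgK
  obtain ⟨O', hO'⟩ : ∃ O' : Set ℕ, O' = O ∩ {k : ℕ | K₀ ≤ k ∧
      yLo N Y p q g k ≤ (r : ℝ) / (2 * (q : ℝ) ^ 2 * ep p q g k) ∧
      (r : ℝ) / (2 * (q : ℝ) ^ 2 * ep p q g k) ≤ yHi N c₁ Y p q g k} := ⟨_, rfl⟩
  have hmem : ∀ k, k ∈ O' ↔ k ∈ O ∧ (K₀ ≤ k ∧
      yLo N Y p q g k ≤ (r : ℝ) / (2 * (q : ℝ) ^ 2 * ep p q g k) ∧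
      (r : ℝ) / (2 * (q : ℝ) ^ 2 * ep p q g k) ≤ yHi N c₁ Y p q g k) := by
    intro k; rw [hO']; exact Iff.rfl
  have hfil : ((Ico K₀ (2 * K₀)).filter
          (fun k : ℕ => (q : ℤ) ∣ (p : ℤ) * k + g ∧ k ∈ O)).filter
            (fun k : ℕ => yLo N Y p q g k ≤ (r : ℝ) / (2 * (q : ℝ) ^ 2 * ep p q g k) ∧
                (r : ℝ) / (2 * (q : ℝ) ^ 2 * ep p q g k) ≤ yHi N c₁ Y p q g k) =
      (Ico K₀ (2 * K₀)).filter (fun k : ℕ => (q : ℤ) ∣ (p : ℤ) * k + g ∧ k ∈ O') := by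
    ext k
    simp only [mem_filter, mem_Ico, hmem]
    tauto
  rw [hfil]
  have hIO : O'.OrdConnected := by rw [hO']; exact hOO.inter hOrd
  have hmain := hK p q K₀ g r O' hq hqp hcop hqK hg hgK hIO
  have hfac : ∑ k ∈ (Ico K₀ (2 * K₀)).filter (fun k : ℕ => (q : ℤ) ∣ (p : ℤ) * k + g ∧ k ∈ O'),
          w * ((1 / Real.sqrt |ep p q g k| : ℝ) : ℂ) * sg g *
              ee (-((r : ℝ) ^ 2) / (8 * (q : ℝ) ^ 4 * ep p q g k)) =
      (w * sg g) * ∑ k ∈ (Ico K₀ (2 * K₀)).filter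
          (fun k : ℕ => (q : ℤ) ∣ (p : ℤ) * k + g ∧ k ∈ O'),
          ((1 / Real.sqrt |ep p q g k| : ℝ) : ℂ) *
              ee (-((r : ℝ) ^ 2) / (8 * (q : ℝ) ^ 4 * ep p q g k)) := by
    rw [mul_sum]
    apply sum_congr rfl
    intro k _
    ring
  have hnd := nd_nonneg ((r : ℝ) ^ 2 / (16 * p * |(g : ℝ)| * q))
  generalize nd ((r : ℝ) ^ 2 / (16 * p * |(g : ℝ)| * q)) = n0 at hnd hmain ⊢
  rcases ((Ico K₀ (2 * K₀)).filter
      (fun k : ℕ => (q : ℤ) ∣ (p : ℤ) * k + g ∧ k ∈ O')).eq_empty_or_nonempty with hem | hne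
  · rw [hem, sum_empty, norm_zero]
    split_ifs
    · positivity
    · exact le_refl 0
  · obtain ⟨k, hk⟩ := hne
    rw [mem_filter, mem_Ico] at hk
    obtain ⟨⟨hk1, hk2⟩, _, hkS⟩ := hk
    rw [hmem] at hkS
    have hb := hBd k hk1 hk2 hkS.2.2.1 hkS.2.2.2
    rw [if_pos hb, hfac, norm_mul, norm_mul, norm_sg, mul_one]
    obtain ⟨hb1, hb2, hb3⟩ := hb
    have hr : (0 : ℝ) < |(r : ℝ)| := by
      apply abs_pos.mpr
      intro h0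
      have : r = 0 := by exact_mod_cast h0
      rw [this] at hb1; simp at hb1
    exact fix_real hC1 hq' hp' hK0' hY' hgR hgG' hr hnd hb3 hw
      (by rw [sq_abs]; exact hmain) (norm_nonneg _)

/-- the bound function. -/
noncomputable def Bf (C1 : ℝ) (p q K₀ Y : ℕ) (V : ℝ) (g r : ℤ) : ℝ :=
  if 0 < r * g ∧ 3 * (p : ℝ) * |(g : ℝ)| ≤ |(r : ℝ)| ∧ |(r : ℝ)| * K₀ ≤ 10 * p * |(g : ℝ)| * Y
  then C1 * Real.sqrt (10 * Y / |(r : ℝ)|) * (((K₀ : ℝ) / q) / (1 + ((K₀ : ℝ) / q) *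
    nd ((r : ℝ) ^ 2 / (16 * p * |(g : ℝ)| * q)) / V)) else 0

theorem Bf_nonneg {C1 V : ℝ} (hC1 : 0 < C1) (hV : 0 < V) (p q K₀ Y : ℕ) (g r : ℤ) :
    0 ≤ Bf C1 p q K₀ Y V g r := by
  unfold Bf
  have := nd_nonneg ((r : ℝ) ^ 2 / (16 * p * |(g : ℝ)| * q))
  split_ifs
  · positivity
  · exact le_refl 0

theorem Bf_neg_neg (C1 V : ℝ) (p q K₀ Y : ℕ) (g r : ℤ) :
    Bf C1 p q K₀ Y V (-g) (-r) = Bf C1 p q K₀ Y V g r := by
  unfold Bf
  push_cast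
  rw [abs_neg, abs_neg, neg_sq, neg_mul_neg]

theorem Bf_opp (C1 V : ℝ) (p q K₀ Y : ℕ) (n m : ℕ) :
    Bf C1 p q K₀ Y V (n : ℤ) (-(m : ℤ)) = 0 := by
  unfold Bf
  rw [if_neg]
  rintro ⟨h, _⟩
  have : (0 : ℤ) ≤ (m : ℤ) * n := by positivity
  linarith [neg_mul (m : ℤ) (n : ℤ)]

theorem Bf_opp' (C1 V : ℝ) (p q K₀ Y : ℕ) (n m : ℕ) :
    Bf C1 p q K₀ Y V (-(n : ℤ)) (m : ℤ) = 0 := by
  have := Bf_neg_neg C1 V p q K₀ Y (n : ℤ) (-(m : ℤ))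
  rw [neg_neg] at this
  rw [this, Bf_opp]

theorem Bf_zero (C1 V : ℝ) (p q K₀ Y : ℕ) (g : ℤ) : Bf C1 p q K₀ Y V g 0 = 0 := by
  unfold Bf
  rw [if_neg]
  rintro ⟨h, _⟩
  simp at h

theorem sum_Bf_r {C1 V : ℝ} (hC1 : 0 < C1) (hV : 0 < V) (p q K₀ Y R : ℕ) (n : ℕ) :
    ∑ r ∈ Icc (-(R : ℤ)) R, Bf C1 p q K₀ Y V (n : ℤ) r ≤
      ∑ m ∈ Icc 1 R, Bf C1 p q K₀ Y V (n : ℤ) (m : ℤ) := by
  have h0 : (0 : ℤ) ∈ Icc (-(R : ℤ)) R := by rw [mem_Icc]; omega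
  rw [← sum_erase_add _ _ h0, Bf_zero, add_zero]
  refine (sum_int_le R _ (fun r => Bf_nonneg hC1 hV _ _ _ _ _ _)).trans ?_
  simp only [Bf_opp, sum_const_zero, add_zero, le_refl]

theorem sum_Bf_r' {C1 V : ℝ} (hC1 : 0 < C1) (hV : 0 < V) (p q K₀ Y R : ℕ) (n : ℕ) :
    ∑ r ∈ Icc (-(R : ℤ)) R, Bf C1 p q K₀ Y V (-(n : ℤ)) r ≤
      ∑ m ∈ Icc 1 R, Bf C1 p q K₀ Y V (n : ℤ) (m : ℤ) := by
  have h0 : (0 : ℤ) ∈ Icc (-(R : ℤ)) R := by rw [mem_Icc]; omega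
  rw [← sum_erase_add _ _ h0, Bf_zero, add_zero]
  refine (sum_int_le R _ (fun r => Bf_nonneg hC1 hV _ _ _ _ _ _)).trans ?_
  simp only [Bf_opp', sum_const_zero, zero_add, Bf_neg_neg, le_refl]

theorem sum_Bf {C1 V : ℝ} (hC1 : 0 < C1) (hV : 0 < V) (p q K₀ Y R G : ℕ) :
    ∑ g ∈ (Icc (-(G : ℤ)) G).erase 0, ∑ r ∈ Icc (-(R : ℤ)) R, Bf C1 p q K₀ Y V g r ≤
      2 * ∑ m ∈ Icc 1 R, ∑ n ∈ Icc 1 G, Bf C1 p q K₀ Y V (n : ℤ) (m : ℤ) := by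
  refine (sum_int_le G _ (fun g => sum_nonneg (fun r _ => Bf_nonneg hC1 hV _ _ _ _ _ _))).trans ?_
  rw [sum_comm (s := Icc 1 R), two_mul]
  exact add_le_add (sum_le_sum (fun n _ => sum_Bf_r hC1 hV p q K₀ Y R n))
    (sum_le_sum (fun n _ => sum_Bf_r' hC1 hV p q K₀ Y R n))

theorem sum_n_Bf {C1 C2 D V : ℝ} (hC1 : 0 < C1) (hV : 1 ≤ V)
    (hC : ∀ (ρ L V D : ℝ) (G : ℕ), 0 < ρ → 1 ≤ L → 1 ≤ V → 1 ≤ G →
      (∀ n : ℕ, 1 ≤ n → (n : ℝ) ≤ ρ + G → (n.divisors.card : ℝ) ≤ D) →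
      ∑ g ∈ (Icc 1 G).filter (fun g : ℕ => (1 : ℝ) / 2 ≤ ρ / g), L / (1 + L * nd (ρ / g) / V)
        ≤ C2 * D * (L + G * V * (1 + Real.log G)))
    {p q K₀ Y G : ℕ} (hq : 1 ≤ q) (hqp : q ≤ p) (hqK : q ≤ K₀) (hY : 1 ≤ Y) (hG : 1 ≤ G)
    (hD : ∀ n : ℕ, 1 ≤ n → (n : ℝ) ≤ 10 * p * (G : ℝ) ^ 2 * (Y : ℝ) ^ 2 / (q * (K₀ : ℝ) ^ 2) + G →
      (n.divisors.card : ℝ) ≤ D) {m : ℕ} (hm : 1 ≤ m) :
    ∑ n ∈ Icc 1 G, Bf C1 p q K₀ Y V (n : ℤ) (m : ℤ) ≤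
      if (m : ℝ) ≤ 10 * p * G * Y / K₀ then
        C1 * Real.sqrt (10 * Y / m) * (C2 * D * ((K₀ : ℝ) / q + G * V * (1 + Real.log G))) else 0 := by
  have hq' : (0 : ℝ) < q := by exact_mod_cast hq
  have hp' : (0 : ℝ) < p := by exact_mod_cast hq.trans hqp
  have hK0' : (0 : ℝ) < K₀ := by exact_mod_cast hq.trans hqK
  have hY' : (0 : ℝ) < Y := by exact_mod_cast hY
  have hm' : (0 : ℝ) < m := by exact_mod_cast hm
  have hG' : (0 : ℝ) < G := by exact_mod_cast hG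
  split_ifs with hmR
  · set ρ : ℝ := (m : ℝ) ^ 2 / (16 * p * q) with hρ
    have hρ0 : 0 < ρ := by rw [hρ]; positivity
    have hL : 1 ≤ (K₀ : ℝ) / q := by
      rw [le_div_iff₀ hq', one_mul]; exact_mod_cast hqK
    have hρle : ρ ≤ 10 * p * (G : ℝ) ^ 2 * (Y : ℝ) ^ 2 / (q * (K₀ : ℝ) ^ 2) := by
      rw [hρ, div_le_div_iff₀ (by positivity) (by positivity)]
      rw [le_div_iff₀ hK0'] at hmR
      have h1 : ((m : ℝ) * K₀) ^ 2 ≤ (10 * p * G * Y) ^ 2 :=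
        pow_le_pow_left₀ (by positivity) hmR 2
      have h2 : 0 ≤ (p : ℝ) ^ 2 * (G : ℝ) ^ 2 * (Y : ℝ) ^ 2 * q := by positivity
      calc (m : ℝ) ^ 2 * (q * (K₀ : ℝ) ^ 2) = ((m : ℝ) * K₀) ^ 2 * q := by ring
        _ ≤ (10 * (p : ℝ) * G * Y) ^ 2 * q := mul_le_mul_of_nonneg_right h1 hq'.le
        _ = 100 * ((p : ℝ) ^ 2 * (G : ℝ) ^ 2 * (Y : ℝ) ^ 2 * q) := by ring
        _ ≤ 160 * ((p : ℝ) ^ 2 * (G : ℝ) ^ 2 * (Y : ℝ) ^ 2 * q) := by linarith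
        _ = 10 * p * (G : ℝ) ^ 2 * (Y : ℝ) ^ 2 * (16 * p * q) := by ring
    have hcount := hC ρ ((K₀ : ℝ) / q) V D G hρ0 hL hV hG
      (fun n hn hn2 => hD n hn (hn2.trans (by linarith)))
    have hterm : ∀ n ∈ Icc 1 G, Bf C1 p q K₀ Y V (n : ℤ) (m : ℤ) ≤
        C1 * Real.sqrt (10 * Y / m) * (if (1 : ℝ) / 2 ≤ ρ / n then
          ((K₀ : ℝ) / q) / (1 + ((K₀ : ℝ) / q) * nd (ρ / n) / V) else 0) := by
      intro n hn
      rw [mem_Icc] at hn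
      have hn' : (0 : ℝ) < n := by exact_mod_cast hn.1
      have hval : 0 ≤ C1 * Real.sqrt (10 * Y / m) * (if (1 : ℝ) / 2 ≤ ρ / n then
          ((K₀ : ℝ) / q) / (1 + ((K₀ : ℝ) / q) * nd (ρ / n) / V) else 0) := by
        apply mul_nonneg (by positivity)
        have := nd_nonneg (ρ / n)
        split_ifs
        · positivity
        · exact le_refl 0
      unfold Bf
      split_ifs with h1 h2 h2
      · have e1 : |(((m : ℤ)) : ℝ)| = m := by push_cast; exact abs_of_pos hm'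
        have e2 : |(((n : ℤ)) : ℝ)| = n := by push_cast; exact abs_of_pos hn'
        have e3 : (((m : ℤ)) : ℝ) ^ 2 / (16 * p * |(((n : ℤ)) : ℝ)| * q) = ρ / n := by
          rw [e2, hρ]; push_cast; rw [div_div]; congr 1; ring
        rw [e3, e1]
      · exfalso
        apply h2
        have e1 : |(((m : ℤ)) : ℝ)| = m := by push_cast; exact abs_of_pos hm'
        have e2 : |(((n : ℤ)) : ℝ)| = n := by push_cast; exact abs_of_pos hn'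
        obtain ⟨_, h3, _⟩ := h1
        rw [e1, e2] at h3
        rw [hρ, div_div, div_le_div_iff₀ (by norm_num) (by positivity)]
        have hn1 : (1 : ℝ) ≤ n := by exact_mod_cast hn.1
        have hqp' : (q : ℝ) ≤ p := by exact_mod_cast hqp
        have h4 : (3 * (p : ℝ) * n) ^ 2 ≤ (m : ℝ) ^ 2 := pow_le_pow_left₀ (by positivity) h3 2
        have h5 : (p : ℝ) * q * n ≤ p * p * (n * n) := by
          have h6 : (p : ℝ) * q ≤ p * p := mul_le_mul_of_nonneg_left hqp' hp'.le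
          have h7 : (n : ℝ) ≤ n * n := by nlinarith
          calc (p : ℝ) * q * n ≤ (p * p) * n := mul_le_mul_of_nonneg_right h6 hn'.le
            _ ≤ (p * p) * (n * n) := mul_le_mul_of_nonneg_left h7 (by positivity)
        have h8 : 0 ≤ (p : ℝ) * p * (n * n) := by positivity
        calc 1 * (16 * (p : ℝ) * q * n) = 16 * (p * q * n) := by ring
          _ ≤ 16 * ((p : ℝ) * p * (n * n)) := by linarith
          _ ≤ 18 * ((p : ℝ) * p * (n * n)) := by linarith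
          _ = 2 * (3 * (p : ℝ) * n) ^ 2 := by ring
          _ ≤ 2 * (m : ℝ) ^ 2 := by linarith
          _ = (m : ℝ) ^ 2 * 2 := by ring
      · rw [if_pos h2] at hval; exact hval
      · rw [mul_zero]
    refine (sum_le_sum hterm).trans ?_
    rw [← mul_sum, ← sum_filter]
    exact mul_le_mul_of_nonneg_left hcount (by positivity)
  · apply le_of_eq
    apply sum_eq_zero
    intro n hn
    rw [mem_Icc] at hn
    unfold Bf
    rw [if_neg]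
    rintro ⟨_, _, h3⟩
    apply hmR
    have e1 : |(((m : ℤ)) : ℝ)| = m := by push_cast; exact abs_of_pos hm'
    have hn' : (0 : ℝ) < n := by exact_mod_cast hn.1
    have e2 : |(((n : ℤ)) : ℝ)| = n := by push_cast; exact abs_of_pos hn'
    rw [e1, e2] at h3
    rw [le_div_iff₀ hK0']
    refine h3.trans ?_
    have : (n : ℝ) ≤ G := by exact_mod_cast hn.2
    gcongr

theorem fix_sum {C1 C2 D V : ℝ} (hC1 : 0 < C1) (hC2 : 0 < C2) (hD0 : 0 ≤ D) (hV : 1 ≤ V)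
    {p q K₀ Y G R : ℕ} (hp : 1 ≤ p) (hK : 1 ≤ K₀) (hY : 1 ≤ Y) (hG : 1 ≤ G) (hq : 1 ≤ q) :
    ∑ m ∈ Icc 1 R, (if (m : ℝ) ≤ 10 * p * G * Y / K₀ then
        C1 * Real.sqrt (10 * Y / m) * (C2 * D * ((K₀ : ℝ) / q + G * V * (1 + Real.log G))) else 0) ≤
      20 * (C1 * C2) * D * (Y * Real.sqrt (p * G / K₀)) *
        ((K₀ : ℝ) / q + G * V * (1 + Real.log G)) := by
  have hq' : (0 : ℝ) < q := by exact_mod_cast hq
  have hp' : (0 : ℝ) < p := by exact_mod_cast hp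
  have hK0' : (0 : ℝ) < K₀ := by exact_mod_cast hK
  have hY' : (0 : ℝ) < Y := by exact_mod_cast hY
  have hG' : (0 : ℝ) < G := by exact_mod_cast hG
  have hG1 : (1 : ℝ) ≤ G := by exact_mod_cast hG
  have hlog : 0 ≤ Real.log G := Real.log_nonneg hG1
  set E : ℝ := (K₀ : ℝ) / q + G * V * (1 + Real.log G) with hE
  have hE0 : 0 ≤ E := by rw [hE]; positivity
  set X : ℝ := 10 * p * G * Y / K₀ with hX
  have hX0 : 0 < X := by rw [hX]; positivity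
  have h1 : ∑ m ∈ Icc 1 R, (if (m : ℝ) ≤ X then
        C1 * Real.sqrt (10 * Y / m) * (C2 * D * E) else 0) ≤
      ∑ m ∈ Icc 1 ⌊X⌋₊, C1 * Real.sqrt (10 * Y / m) * (C2 * D * E) := by
    rw [← sum_filter]
    apply sum_le_sum_of_subset_of_nonneg
    · intro m hm
      rw [mem_filter, mem_Icc] at hm
      rw [mem_Icc]
      exact ⟨hm.1.1, Nat.le_floor hm.2⟩
    · intro m _ _
      positivity
  refine h1.trans ?_
  have h2 : ∀ m ∈ Icc 1 ⌊X⌋₊, C1 * Real.sqrt (10 * Y / m) * (C2 * D * E) =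
      (C1 * Real.sqrt (10 * Y) * (C2 * D * E)) * (1 / Real.sqrt m) := by
    intro m _
    rw [Real.sqrt_div (by positivity)]
    ring
  rw [sum_congr rfl h2, ← mul_sum]
  have h3 := sum_inv_sqrt_le ⌊X⌋₊
  have h4 : Real.sqrt (⌊X⌋₊ : ℝ) ≤ Real.sqrt X := Real.sqrt_le_sqrt (Nat.floor_le hX0.le)
  have h5 : Real.sqrt (10 * Y) * Real.sqrt X = 10 * (Y * Real.sqrt (p * G / K₀)) := by
    rw [← Real.sqrt_mul (by positivity)]
    have : 10 * (Y : ℝ) * X = (10 * Y) ^ 2 * (p * G / K₀) := by rw [hX]; ring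
    rw [this, Real.sqrt_mul (by positivity), Real.sqrt_sq (by positivity)]
    ring
  calc (C1 * Real.sqrt (10 * Y) * (C2 * D * E)) * ∑ m ∈ Icc 1 ⌊X⌋₊, 1 / Real.sqrt (m : ℝ)
      ≤ (C1 * Real.sqrt (10 * Y) * (C2 * D * E)) * (2 * Real.sqrt X) := by
        apply mul_le_mul_of_nonneg_left _ (by positivity)
        linarith
    _ = 2 * (C1 * C2) * D * (Real.sqrt (10 * Y) * Real.sqrt X) * E := by ring
    _ = 20 * (C1 * C2) * D * (Y * Real.sqrt (p * G / K₀)) * E := by rw [h5]; ring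

open scoped Classical in
theorem fix (hK : TKsum) (hC : TCount) (hO : TOrd) : TFix := by
  obtain ⟨C1, hC1, hK⟩ := hK
  obtain ⟨C2, hC2, hC⟩ := hC
  refine ⟨4000 * (C1 * C2), by positivity, ?_⟩
  intro N c₁ D p q K₀ Y G R w O hN hq hqp hcop hqK hY hG hGK hw hOO hD
  have hq' : (0 : ℝ) < q := by exact_mod_cast hq
  have hp' : (0 : ℝ) < p := by exact_mod_cast hq.trans hqp
  have hK1 : 1 ≤ K₀ := hq.trans hqK
  have hK0' : (0 : ℝ) < K₀ := by exact_mod_cast hK1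
  have hY' : (0 : ℝ) < Y := by exact_mod_cast hY
  have hG' : (0 : ℝ) < G := by exact_mod_cast hG
  have hG1 : (1 : ℝ) ≤ G := by exact_mod_cast hG
  have hlog : 0 ≤ Real.log G := Real.log_nonneg hG1
  have hD0 : 0 ≤ D := by
    have := hD 1 le_rfl (by
      have : 0 ≤ 10 * p * (G : ℝ) ^ 2 * (Y : ℝ) ^ 2 / (q * (K₀ : ℝ) ^ 2) := by positivity
      push_cast; linarith)
    exact (Nat.cast_nonneg _).trans this
  set V1 : ℝ := 1 + (G : ℝ) ^ 3 * (Y : ℝ) ^ 2 / (p * (q : ℝ) ^ 2 * (K₀ : ℝ) ^ 3) with hV1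
  have hV11 : 1 ≤ V1 := by
    rw [hV1]
    have : 0 ≤ (G : ℝ) ^ 3 * (Y : ℝ) ^ 2 / (p * (q : ℝ) ^ 2 * (K₀ : ℝ) ^ 3) := by positivity
    linarith
  have hV : 1 ≤ 100 * V1 := by linarith
  have hswap : ∀ g ∈ (Icc (-(G : ℤ)) G).erase 0,
      ‖∑ k ∈ (Ico K₀ (2 * K₀)).filter (fun k : ℕ => (q : ℤ) ∣ (p : ℤ) * k + g ∧ k ∈ O g),
          ∑ r ∈ (Icc (-(R : ℤ)) R).filter
              (fun r : ℤ => yLo N Y p q g k ≤ (r : ℝ) / (2 * (q : ℝ) ^ 2 * ep p q g k) ∧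
                (r : ℝ) / (2 * (q : ℝ) ^ 2 * ep p q g k) ≤ yHi N c₁ Y p q g k),
            w r * ((1 / Real.sqrt |ep p q g k| : ℝ) : ℂ) * sg g *
              ee (-((r : ℝ) ^ 2) / (8 * (q : ℝ) ^ 4 * ep p q g k))‖ ≤
      ∑ r ∈ Icc (-(R : ℤ)) R, Bf C1 p q K₀ Y (100 * V1) g r := by
    intro g hg
    rw [mem_erase, mem_Icc] at hg
    have e : ∑ k ∈ (Ico K₀ (2 * K₀)).filter (fun k : ℕ => (q : ℤ) ∣ (p : ℤ) * k + g ∧ k ∈ O g),
          ∑ r ∈ (Icc (-(R : ℤ)) R).filter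
              (fun r : ℤ => yLo N Y p q g k ≤ (r : ℝ) / (2 * (q : ℝ) ^ 2 * ep p q g k) ∧
                (r : ℝ) / (2 * (q : ℝ) ^ 2 * ep p q g k) ≤ yHi N c₁ Y p q g k),
            w r * ((1 / Real.sqrt |ep p q g k| : ℝ) : ℂ) * sg g *
              ee (-((r : ℝ) ^ 2) / (8 * (q : ℝ) ^ 4 * ep p q g k)) =
        ∑ r ∈ Icc (-(R : ℤ)) R, ∑ k ∈ ((Ico K₀ (2 * K₀)).filter
          (fun k : ℕ => (q : ℤ) ∣ (p : ℤ) * k + g ∧ k ∈ O g)).filter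
            (fun k : ℕ => yLo N Y p q g k ≤ (r : ℝ) / (2 * (q : ℝ) ^ 2 * ep p q g k) ∧
                (r : ℝ) / (2 * (q : ℝ) ^ 2 * ep p q g k) ≤ yHi N c₁ Y p q g k),
          w r * ((1 / Real.sqrt |ep p q g k| : ℝ) : ℂ) * sg g *
              ee (-((r : ℝ) ^ 2) / (8 * (q : ℝ) ^ 4 * ep p q g k)) := by
      have e1 : ∀ k : ℕ, ∑ r ∈ (Icc (-(R : ℤ)) R).filter
              (fun r : ℤ => yLo N Y p q g k ≤ (r : ℝ) / (2 * (q : ℝ) ^ 2 * ep p q g k) ∧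
                (r : ℝ) / (2 * (q : ℝ) ^ 2 * ep p q g k) ≤ yHi N c₁ Y p q g k),
            w r * ((1 / Real.sqrt |ep p q g k| : ℝ) : ℂ) * sg g *
              ee (-((r : ℝ) ^ 2) / (8 * (q : ℝ) ^ 4 * ep p q g k)) =
          ∑ r ∈ Icc (-(R : ℤ)) R,
            if yLo N Y p q g k ≤ (r : ℝ) / (2 * (q : ℝ) ^ 2 * ep p q g k) ∧
                (r : ℝ) / (2 * (q : ℝ) ^ 2 * ep p q g k) ≤ yHi N c₁ Y p q g k then
            w r * ((1 / Real.sqrt |ep p q g k| : ℝ) : ℂ) * sg g *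
              ee (-((r : ℝ) ^ 2) / (8 * (q : ℝ) ^ 4 * ep p q g k)) else 0 := by
        intro k; rw [sum_filter]
      simp only [e1]
      rw [sum_comm]
      apply sum_congr rfl
      intro r _
      rw [← sum_filter]
    rw [e]
    refine (norm_sum_le _ _).trans (sum_le_sum (fun r _ => ?_))
    have hgG : |g| ≤ (G : ℤ) := by rw [abs_le]; exact ⟨hg.2.1, hg.2.2⟩
    have := fix_step hC1 hK hO N c₁ p q K₀ Y G g r (w r) (O g) hN hq hqp hcop hqK hY hg.1 hgG hGK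
      (hw r) (hOO g hg.1)
    exact this
  calc _ ≤ ∑ g ∈ (Icc (-(G : ℤ)) G).erase 0, ∑ r ∈ Icc (-(R : ℤ)) R,
          Bf C1 p q K₀ Y (100 * V1) g r := (norm_sum_le _ _).trans (sum_le_sum hswap)
    _ ≤ 2 * ∑ m ∈ Icc 1 R, ∑ n ∈ Icc 1 G, Bf C1 p q K₀ Y (100 * V1) (n : ℤ) (m : ℤ) :=
        sum_Bf hC1 (by linarith) p q K₀ Y R G
    _ ≤ 2 * ∑ m ∈ Icc 1 R, (if (m : ℝ) ≤ 10 * p * G * Y / K₀ then
          C1 * Real.sqrt (10 * Y / m) *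
            (C2 * D * ((K₀ : ℝ) / q + G * (100 * V1) * (1 + Real.log G))) else 0) := by
        apply mul_le_mul_of_nonneg_left _ (by norm_num)
        apply sum_le_sum
        intro m hm
        rw [mem_Icc] at hm
        exact sum_n_Bf hC1 hV hC hq hqp hqK hY hG hD hm.1
    _ ≤ 2 * (20 * (C1 * C2) * D * (Y * Real.sqrt (p * G / K₀)) *
          ((K₀ : ℝ) / q + G * (100 * V1) * (1 + Real.log G))) := by
        apply mul_le_mul_of_nonneg_left _ (by norm_num)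
        exact fix_sum hC1 hC2 hD0 hV (hq.trans hqp) hK1 hY hG hq
    _ ≤ 4000 * (C1 * C2) * D * (Y * Real.sqrt (p * G / K₀)) *
          ((K₀ : ℝ) / q + G * V1 * (1 + Real.log G)) := by
        have h1 : (K₀ : ℝ) / q + G * (100 * V1) * (1 + Real.log G) ≤
            100 * ((K₀ : ℝ) / q + G * V1 * (1 + Real.log G)) := by
          have : 0 ≤ (K₀ : ℝ) / q := by positivity
          nlinarith
        have h2 : 0 ≤ 40 * ((C1 * C2) * D * (Y * Real.sqrt (p * G / K₀))) := by positivity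
        have h3 := mul_le_mul_of_nonneg_left h1 h2
        calc _ = 40 * ((C1 * C2) * D * (Y * Real.sqrt (p * G / K₀))) *
              ((K₀ : ℝ) / q + G * (100 * V1) * (1 + Real.log G)) := by ring
          _ ≤ _ := h3
          _ = _ := by ring

end Pool.Agent.H98.Cubic
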