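import Pool.Agent.H94.Cubic.TP
import Pool.Agent.H67.Cubic.Fres
import Pool.Agent.H67.Cubic.Abel
import Pool.Agent.H67.Cubic.Gauss
import Pool.Agent.H7.Cubic.SP
import Pool.Agent.H22.Cubic.Z1
import Pool.Agent.H22.Cubic.Z2
import Pool.Agent.H97.Cubic.Z3
import Pool.Agent.H97.Cubic.AFEc
import Pool.Agent.H58.Cubic.Z4
import Pool.Agent.H58.Cubic.Second
import Pool.Agent.H58.Cubic.Final
import Pool.Agent.H33.Cubic.Exp
import Pool.Agent.H33.Cubic.Dec
import Pool.Agent.H33.Cubic.W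
import Pool.Agent.H49.Cubic.LemQ
import Pool.Agent.H49.Cubic.Pair
import Pool.Agent.H89.Cubic.Ksum
import Pool.Agent.H2.Cubic.Count
import Pool.Agent.H14.Cubic.Ord
import Pool.Agent.H14.Cubic.QP
import Pool.Agent.H90.Cubic.Elem
import Pool.Agent.H90.Cubic.Err
import Pool.Agent.H90.Cubic.P3
import Pool.Agent.H12.Cubic.Red
import Pool.Agent.H89.Cubic.Box
import Pool.Agent.H89.Cubic.Div
import Pool.Agent.H98.Cubic.Fix

/-! Cubic moment of Hardy's function: assembly. -/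

set_option autoImplicit false

namespace Pool.Agent.H98.Cubic

theorem afe_all : TAFE :=
  Pool.Agent.H97.Cubic.afe Pool.Agent.H94.Cubic.tp Pool.Agent.H22.Cubic.z1 Pool.Agent.H22.Cubic.z2
    Pool.Agent.H97.Cubic.z3 Pool.Agent.H58.Cubic.z4 Pool.Agent.H58.Cubic.zreal

theorem sp_all : TSP := Pool.Agent.H7.Cubic.sp Pool.Agent.H67.Cubic.fres

theorem pair_all : TPair :=
  Pool.Agent.H49.Cubic.pair (Pool.Agent.H49.Cubic.lemQ Pool.Agent.H94.Cubic.tp
    Pool.Agent.H67.Cubic.fres) Pool.Agent.H67.Cubic.gauss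

theorem fix_all : TFix :=
  fix Pool.Agent.H89.Cubic.ksum Pool.Agent.H2.Cubic.count Pool.Agent.H14.Cubic.ord

theorem qp_all : TQP := Pool.Agent.H14.Cubic.qp pair_all fix_all

theorem w_all : TW :=
  Pool.Agent.H33.Cubic.w (Pool.Agent.H89.Cubic.box Pool.Agent.H33.Cubic.dec qp_all
    Pool.Agent.H89.Cubic.div_bound) Pool.Agent.H67.Cubic.abel

theorem red_all : TRed :=
  Pool.Agent.H12.Cubic.red afe_all Pool.Agent.H58.Cubic.second sp_all Pool.Agent.H90.Cubic.err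
    Pool.Agent.H90.Cubic.p3 Pool.Agent.H33.Cubic.exp Pool.Agent.H58.Cubic.zreal

theorem final_all : TFinal :=
  Pool.Agent.H58.Cubic.final red_all w_all Pool.Agent.H58.Cubic.zreal

end Pool.Agent.H98.Cubic
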